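import Pool.Agent.U613.PO.Lab

/-!
# Intermediate growth is inherited by virtual quotients which are virtual subgroups of powers
-/

set_option autoImplicit false

open scoped Pointwise

namespace Pool.Agent.U613.VQ

open Pool.Agent.U613.PO

universe u v

open Classical in
/-- every finite subset has subexponential growth -/
def SubExp (G : Type u) [Group G] : Prop :=
  ∀ T : Finset G, (1 : G) ∈ T → ∀ c : ℝ, 0 < c → ∃ r : ℕ, ((T ^ r).card : ℝ) < Real.exp (c * r)

open Classical in
/-- some finite subset has superpolynomial growth -/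
def SuperPoly (G : Type u) [Group G] : Prop :=
  ∃ T : Finset G, ∀ C d : ℕ, ∃ r : ℕ, C * (r + 1) ^ d < (T ^ r).card

/-- The growth function with respect to `S`: the number of elements of word length at most `n`. -/
noncomputable def growth {G : Type u} [Group G] (S : Finset G) (n : ℕ) : ℕ :=
  (((S : Set G) ∪ (S : Set G)⁻¹ ∪ {1}) ^ n).ncard

/-- Type (7): for a finite generating set `S` the growth function is bounded above by no polynomial
and bounded below by no exponential function `e ^ (c r)`, `c > 0`. -/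
def Type7 (G : Type u) [Group G] : Prop :=
  ∃ S : Finset G, Subgroup.closure (S : Set G) = ⊤ ∧
    (∀ C d : ℕ, ∃ r : ℕ, C * (r + 1) ^ d < growth S r) ∧
    ∀ c : ℝ, 0 < c → ∃ r : ℕ, (growth S r : ℝ) < Real.exp (c * r)

section

variable {G : Type u} [Group G]

open Classical in
/-- the symmetrized generating set with `1` -/
noncomputable def sy (S : Finset G) : Finset G := S ∪ S⁻¹ ∪ {1}

theorem one_mem_sy (S : Finset G) : (1 : G) ∈ sy S := by
  classical
  simp [sy]

open Classical in
theorem growth_eq (S : Finset G) (n : ℕ) : growth S n = (sy S ^ n).card := by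
  unfold growth sy
  rw [← Set.ncard_coe_finset]
  congr 1
  push_cast
  rfl

open Classical in
theorem exists_pow (S : Finset G) (hS : Subgroup.closure (S : Set G) = ⊤) (g : G) :
    ∃ n : ℕ, g ∈ sy S ^ n := by
  have hg : g ∈ Subgroup.closure (S : Set G) := by rw [hS]; trivial
  have hinv : (sy S)⁻¹ = sy S := by
    unfold sy
    ext x
    simp only [Finset.mem_inv', Finset.mem_union, Finset.mem_singleton, inv_inv]
    constructor
    · rintro ((h | h) | h)
      · exact Or.inl (Or.inr h)
      · exact Or.inl (Or.inl h)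
      · exact Or.inr (by rw [← inv_inv x, h, inv_one])
    · rintro ((h | h) | h)
      · exact Or.inl (Or.inr h)
      · exact Or.inl (Or.inl h)
      · exact Or.inr (by rw [h, inv_one])
  induction hg using Subgroup.closure_induction with
  | mem x hx => exact ⟨1, by rw [pow_one]; unfold sy; simp only [Finset.mem_union]; exact Or.inl (Or.inl hx)⟩
  | one => exact ⟨0, by rw [pow_zero]; exact Finset.mem_one.2 rfl⟩
  | mul x y _ _ ihx ihy =>
    obtain ⟨m, hm⟩ := ihx
    obtain ⟨n, hn⟩ := ihy
    exact ⟨m + n, by rw [pow_add]; exact Finset.mul_mem_mul hm hn⟩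
  | inv x _ ih =>
    obtain ⟨n, hn⟩ := ih
    refine ⟨n, ?_⟩
    rw [← hinv, inv_pow]
    exact Finset.inv_mem_inv hn

open Classical in
theorem exists_pow_fin (S : Finset G) (hS : Subgroup.closure (S : Set G) = ⊤) (T : Finset G) :
    ∃ m : ℕ, 1 ≤ m ∧ T ⊆ sy S ^ m := by
  choose n hn using exists_pow S hS
  refine ⟨T.sup n + 1, by omega, fun t ht => ?_⟩
  have h1 : n t ≤ T.sup n + 1 := (Finset.le_sup ht).trans (by omega)
  exact Finset.pow_subset_pow_right (one_mem_sy S) h1 (hn t)

open Classical in
theorem card_pow_mul_le (T : Finset G) (r k : ℕ) : (T ^ (r * k)).card ≤ (T ^ r).card ^ k := by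
  rw [pow_mul]
  exact Finset.card_pow_le

theorem subExp_of_type7 (h : Type7 G) : SubExp G := by
  classical
  obtain ⟨S, hS, -, hS2⟩ := h
  intro T _ c hc
  obtain ⟨m, hm, hT⟩ := exists_pow_fin S hS T
  have hm' : (0 : ℝ) < m := by exact_mod_cast hm
  obtain ⟨r, hr⟩ := hS2 (c / m) (by positivity)
  refine ⟨r, ?_⟩
  rw [growth_eq] at hr
  have h1 : (T ^ r).card ≤ (sy S ^ r).card ^ m := by
    refine (Finset.card_le_card (Finset.pow_subset_pow_left hT)).trans ?_
    rw [← pow_mul, mul_comm]
    exact card_pow_mul_le _ _ _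
  calc ((T ^ r).card : ℝ) ≤ ((sy S ^ r).card : ℝ) ^ m := by exact_mod_cast h1
    _ < Real.exp (c / m * r) ^ m := by
        apply pow_lt_pow_left₀ hr (by positivity) (by omega)
    _ = Real.exp (c * r) := by
        rw [← Real.exp_nat_mul]
        congr 1
        field_simp

theorem superPoly_of_type7 (h : Type7 G) : SuperPoly G := by
  classical
  obtain ⟨S, hS, hS1, -⟩ := h
  refine ⟨sy S, fun C d => ?_⟩
  obtain ⟨r, hr⟩ := hS1 C d
  exact ⟨r, by rwa [growth_eq] at hr⟩

theorem type7_of [hG : Group.FG G] (h1 : SubExp G) (h2 : SuperPoly G) : Type7 G := by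
  classical
  obtain ⟨S, hS⟩ := hG.out
  refine ⟨S, hS, fun C d => ?_, fun c hc => ?_⟩
  · obtain ⟨T, hT⟩ := h2
    obtain ⟨m, hm, hTm⟩ := exists_pow_fin S hS T
    by_contra hcon
    push Not at hcon
    obtain ⟨r, hr⟩ := hT (C * (m + 1) ^ d) d
    have h3 : (T ^ r).card ≤ growth S (m * r) := by
      rw [growth_eq, pow_mul]
      exact Finset.card_le_card (Finset.pow_subset_pow_left hTm)
    have h4 := hcon (m * r)
    have h5 : (m * r + 1) ^ d ≤ ((m + 1) * (r + 1)) ^ d := by
      apply Nat.pow_le_pow_left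
      nlinarith
    have h6 : C * (m * r + 1) ^ d ≤ C * (m + 1) ^ d * (r + 1) ^ d := by
      rw [mul_assoc, ← mul_pow]
      exact Nat.mul_le_mul_left _ h5
    omega
  · obtain ⟨r, hr⟩ := h1 (sy S) (one_mem_sy S) c hc
    exact ⟨r, by rwa [growth_eq]⟩

open Classical in
theorem SubExp.large (h : SubExp G) (T : Finset G) (hT : (1 : G) ∈ T) {c : ℝ} (hc : 0 < c)
    (r₀ : ℕ) : ∃ r : ℕ, r₀ ≤ r ∧ ((T ^ r).card : ℝ) < Real.exp (c * r) := by
  obtain ⟨r, hr⟩ := h T hT c hc
  have hr0 : 1 ≤ r := by
    by_contra hcon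
    have : r = 0 := by omega
    subst this
    simp at hr
  refine ⟨r * (r₀ + 1), by nlinarith, ?_⟩
  calc ((T ^ (r * (r₀ + 1))).card : ℝ) ≤ ((T ^ r).card : ℝ) ^ (r₀ + 1) := by
        exact_mod_cast card_pow_mul_le T r (r₀ + 1)
    _ < Real.exp (c * r) ^ (r₀ + 1) := pow_lt_pow_left₀ hr (by positivity) (by omega)
    _ = _ := by
        rw [← Real.exp_nat_mul]
        congr 1
        push_cast
        ring

end

section

variable {G : Type u} {H : Type v} [Group G] [Group H]

theorem SubExp.of_injective (h : SubExp G) (f : H →* G) (hf : Function.Injective f) :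
    SubExp H := by
  classical
  intro T hT c hc
  obtain ⟨r, hr⟩ := h (T.image f) (Finset.mem_image.2 ⟨1, hT, map_one f⟩) c hc
  refine ⟨r, ?_⟩
  rw [← Finset.image_pow, Finset.card_image_of_injective _ hf] at hr
  exact hr

theorem SuperPoly.of_injective (h : SuperPoly H) (f : H →* G) (hf : Function.Injective f) :
    SuperPoly G := by
  classical
  obtain ⟨T, hT⟩ := h
  refine ⟨T.image f, fun C d => ?_⟩
  obtain ⟨r, hr⟩ := hT C d
  refine ⟨r, ?_⟩
  rw [← Finset.image_pow, Finset.card_image_of_injective _ hf]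
  exact hr

theorem SuperPoly.of_surjective (h : SuperPoly G) (f : H →* G) (hf : Function.Surjective f) :
    SuperPoly H := by
  classical
  obtain ⟨T, hT⟩ := h
  choose g hg using hf
  refine ⟨T.image g, fun C d => ?_⟩
  obtain ⟨r, hr⟩ := hT C d
  refine ⟨r, lt_of_lt_of_le hr ?_⟩
  have h1 : (T.image g).image f = T := by
    rw [Finset.image_image]
    have : f ∘ g = id := funext hg
    rw [this, Finset.image_id]
  calc (T ^ r).card = (((T.image g).image f) ^ r).card := by rw [h1]
    _ = (((T.image g) ^ r).image f).card := by rw [Finset.image_pow]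
    _ ≤ ((T.image g) ^ r).card := Finset.card_image_le

/-- subexponential growth is inherited by wreath products with finite groups -/
theorem SubExp.wreath {C Q : Type u} [Group C] [Group Q] [Finite C] (h : SubExp Q) :
    SubExp (W C Q) := by
  classical
  letI : DecidableEq (W C Q) := fun a b => Classical.propDecidable (a = b)
  have := Fintype.ofFinite C
  intro T' _ c hc
  let T : Finset Q := T'.biUnion (fun w => Finset.univ.image w.left) ∪ {1}
  have hT1 : (1 : Q) ∈ T := Finset.mem_union_right _ (Finset.mem_singleton_self _)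
  have hT : ∀ w ∈ T', ∀ a, w.left a ∈ T := fun w hw a =>
    Finset.mem_union_left _ (Finset.mem_biUnion.2 ⟨w, hw, Finset.mem_image_of_mem _ (Finset.mem_univ a)⟩)
  have key : ∀ r : ℕ, ∀ w ∈ T' ^ r, ∀ a, w.left a ∈ T ^ r := by
    intro r
    induction r with
    | zero =>
      intro w hw a
      rw [pow_zero, Finset.mem_one] at hw
      subst hw
      rw [pow_zero]
      exact Finset.mem_one.2 rfl
    | succ r ih =>
      intro w hw a
      rw [pow_succ] at hw ⊢
      obtain ⟨x, hx, y, hy, rfl⟩ := Finset.mem_mul.1 hw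
      rw [W.mul_left_apply]
      exact Finset.mul_mem_mul (ih x hx a) (hT y hy _)
  have hcard : ∀ r : ℕ, (T' ^ r).card ≤ (T ^ r).card ^ Fintype.card C * Fintype.card C := by
    intro r
    have h1 : (T' ^ r).card ≤
        ((Fintype.piFinset fun _ : C => T ^ r) ×ˢ (Finset.univ : Finset C)).card := by
      apply Finset.card_le_card_of_injOn (fun w => (w.left, w.right))
      · intro w hw
        rw [Finset.mem_coe, Finset.mem_product]
        exact ⟨Fintype.mem_piFinset.2 fun a => key r w hw a, Finset.mem_univ _⟩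
      · intro w _ w' _ hww
        exact SemidirectProduct.ext (congrArg Prod.fst hww) (congrArg Prod.snd hww)
    rw [Finset.card_product, Fintype.card_piFinset, Finset.prod_const, Finset.card_univ] at h1
    exact h1
  set n := Fintype.card C with hn
  have hn1 : 1 ≤ n := Fintype.card_pos
  have hn' : (0 : ℝ) < n := by exact_mod_cast hn1
  obtain ⟨r₀, hr₀⟩ := exists_nat_gt (2 * n / c : ℝ)
  obtain ⟨r, hr, hr2⟩ := h.large T hT1 (c := c / (2 * n)) (by positivity) r₀
  refine ⟨r, ?_⟩
  have h1 : (2 * n / c : ℝ) < r := lt_of_lt_of_le hr₀ (by exact_mod_cast hr)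
  have h2 : (n : ℝ) ≤ Real.exp (c * r / 2) := by
    have h3 : (n : ℝ) ≤ c * r / 2 := by
      rw [div_lt_iff₀ hc] at h1
      linarith
    linarith [Real.add_one_le_exp (c * r / 2)]
  have hfin : ((T' ^ r).card : ℝ) < Real.exp (c * r) := by
   calc ((T' ^ r).card : ℝ) ≤ ((T ^ r).card : ℝ) ^ n * n := by exact_mod_cast hcard r
    _ < Real.exp (c / (2 * n) * r) ^ n * n := by
        apply mul_lt_mul_of_pos_right _ hn'
        exact pow_lt_pow_left₀ hr2 (by positivity) (by omega)
    _ = Real.exp (c * r / 2) * n := by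
        rw [← Real.exp_nat_mul]
        congr 2
        field_simp
    _ ≤ Real.exp (c * r / 2) * Real.exp (c * r / 2) := by gcongr
    _ = Real.exp (c * r) := by
        rw [← Real.exp_add]
        congr 1
        ring
  exact hfin

end

end Pool.Agent.U613.VQ
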