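import Pool.Agent.U613.VQ.Step
import Pool.Agent.U613.VQ.Gr
import Pool.Agent.U613.MG.Gam

/-!
# Killing the abelianization
-/

set_option autoImplicit false

namespace Pool.Agent.U613.VQ

open Subgroup Pool.Agent.U613.PO Pool.Agent.U613.MG

universe u v

/-- a finitely generated group with infinite abelianization maps onto `ℤ` -/
theorem exists_char {G : Type} [Group G] [hG : Group.FG G] (h : ¬ Finite (Abelianization G)) :
    ∃ χ : G →* Multiplicative ℤ, Function.Surjective χ := by
  classical
  let A := Additive (Abelianization G)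
  have h1 : Group.FG (Abelianization G) :=
    Group.fg_of_surjective (f := Abelianization.of) (QuotientGroup.mk'_surjective _)
  have h3 : AddMonoid.FG A := by
    rw [← AddGroup.fg_iff_addMonoid_fg, ← GroupFG.iff_add_fg]
    exact h1
  have h4 : Module.Finite ℤ A :=
    Module.Finite.iff_addGroup_fg.2 (AddGroup.fg_iff_addMonoid_fg.2 h3)
  let T := Submodule.torsion ℤ A
  have hfree : Module.Free ℤ (A ⧸ T) := inferInstance
  have hnt : Nontrivial (A ⧸ T) := by
    by_contra hcon
    rw [not_nontrivial_iff_subsingleton] at hcon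
    have hT : T = ⊤ := Submodule.Quotient.subsingleton_iff.1 hcon
    have htor : Module.IsTorsion ℤ A := by
      intro x
      have hx : x ∈ T := by rw [hT]; trivial
      exact hx
    have h5 : Finite A := Module.finite_of_fg_torsion A htor
    exact h h5
  let b := Module.Free.chooseBasis ℤ (A ⧸ T)
  have hne : Nonempty (Module.Free.ChooseBasisIndex ℤ (A ⧸ T)) := b.index_nonempty
  obtain ⟨i⟩ := hne
  let ψ : A →+ ℤ := ((b.coord i).comp T.mkQ).toAddMonoidHom
  have hψ : Function.Surjective ψ := by
    intro n
    obtain ⟨x, hx⟩ := T.mkQ_surjective (n • b i)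
    refine ⟨x, ?_⟩
    show b.coord i (T.mkQ x) = n
    rw [hx, map_smul, Module.Basis.coord_apply, Module.Basis.repr_self, Finsupp.single_eq_same, smul_eq_mul,
      mul_one]
  let φ : Abelianization G →* Multiplicative ℤ :=
    { toFun := fun x => Multiplicative.ofAdd (ψ (Additive.ofMul x))
      map_one' := by
        show Multiplicative.ofAdd (ψ 0) = 1
        rw [map_zero]; rfl
      map_mul' := by
        intro x y
        show Multiplicative.ofAdd (ψ (Additive.ofMul x + Additive.ofMul y)) = _
        rw [map_add]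
        rfl }
  refine ⟨φ.comp Abelianization.of, ?_⟩
  intro n
  obtain ⟨x, hx⟩ := hψ (Multiplicative.toAdd n)
  obtain ⟨g, hg⟩ := QuotientGroup.mk'_surjective (commutator G) x.toMul
  refine ⟨g, ?_⟩
  show Multiplicative.ofAdd (ψ (Additive.ofMul (QuotientGroup.mk' (commutator G) g))) = n
  rw [hg]
  show Multiplicative.ofAdd (ψ x) = n
  rw [hx]
  rfl

/-- A class of groups which is closed under subgroups and wreath products with finite groups -/
def Closed (P : (G : Type) → [Group G] → Prop) : Prop :=
  (∀ (G H : Type) [Group G] [Group H] (f : H →* G), Function.Injective f → P G → P H) ∧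
    ∀ (G C : Type) [Group G] [Group C] [Finite C], P G → P (W C G)

/-- `E` has a subgroup of finite index which maps onto `G`, and belongs to all closed classes which
contain `G` -/
def Up (G E : Type) [Group G] [Group E] : Prop :=
  (∃ H : Subgroup E, H.FiniteIndex ∧ ∃ π : H →* G, Function.Surjective π) ∧
    ∀ P : (G : Type) → [Group G] → Prop, Closed P → P G → P E

theorem Up.refl (G : Type) [Group G] : Up G G :=
  ⟨⟨⊤, inferInstance, (Subgroup.topEquiv : (⊤ : Subgroup G) ≃* G).toMonoidHom,
    (Subgroup.topEquiv : (⊤ : Subgroup G) ≃* G).surjective⟩, fun _ _ h => h⟩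

theorem Up.trans {G E F : Type} [Group G] [Group E] [Group F] (h1 : Up G E) (h2 : Up E F) :
    Up G F := by
  refine ⟨?_, fun P hP h => h2.2 P hP (h1.2 P hP h)⟩
  obtain ⟨H, hH, π, hπ⟩ := h1.1
  obtain ⟨K, hK, ρ, hρ⟩ := h2.1
  -- the preimage of `H` in `K`, as a subgroup of `F`
  refine ⟨(H.comap ρ).map K.subtype, ?_, ?_⟩
  · refine ⟨?_⟩
    rw [index_map_subtype, H.index_comap_of_surjective hρ]
    exact mul_ne_zero hH.index_ne_zero hK.index_ne_zero
  · let e : (H.comap ρ) ≃* (H.comap ρ).map K.subtype :=
      (H.comap ρ).equivMapOfInjective K.subtype K.subtype_injective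
    let r : H.comap ρ →* H := (ρ.comp (H.comap ρ).subtype).codRestrict H fun x => x.2
    have hr : Function.Surjective r := by
      rintro ⟨x, hx⟩
      obtain ⟨k, rfl⟩ := hρ x
      exact ⟨⟨k, hx⟩, rfl⟩
    exact ⟨(π.comp r).comp e.symm.toMonoidHom, (hπ.comp hr).comp e.symm.surjective⟩

theorem up_EE {G : Type} [Group G] (χ : G →* Multiplicative ℤ) (hχ : Function.Surjective χ) :
    Up G (EE χ) := by
  refine ⟨?_, fun P hP h => ?_⟩
  · obtain ⟨π, hπ⟩ := EE_quot χ hχ
    exact ⟨base (EE χ), inferInstance, π, hπ⟩
  · exact hP.1 _ _ (EE χ).subtype (EE χ).subtype_injective (hP.2 G C3 h)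

/-- Every finitely presented group is a virtual quotient of a finitely presented group with finite
abelianization in the same closed classes. -/
theorem exists_fab {G : Type} [Group G] (hG : Group.IsFinitelyPresented G) :
    ∃ (E : Type) (_ : Group E), Group.IsFinitelyPresented E ∧ Finite (Abelianization E) ∧ Up G E := by
  induction hn : Module.finrank ℚ (V G) using Nat.strong_induction_on generalizing G with
  | _ n ih =>
    by_cases h : Finite (Abelianization G)
    · exact ⟨G, _, hG, h, Up.refl G⟩
    · have hfg : Group.FG G := fg_of_fp hG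
      obtain ⟨χ, hχ⟩ := exists_char h
      obtain ⟨τ, hτ⟩ := hχ (Multiplicative.ofAdd 1)
      have h1 := rank_lt χ τ hτ
      obtain ⟨E, _, hE1, hE2, hE3⟩ := ih _ (hn ▸ h1) (G := EE χ) (EE_fp χ hχ) rfl
      exact ⟨E, _, hE1, hE2, (up_EE χ hχ).trans hE3⟩

theorem up_PP {Q : Type} [Group Q] {k : ℕ} (g : Fin k → Q) (hg : closure (Set.range g) = ⊤) :
    Up Q (PP g) := by
  refine ⟨?_, fun P hP h => ?_⟩
  · refine ⟨base (PP g), inferInstance, ev (PP g), ?_⟩
    intro q
    obtain ⟨w, hw, hw1, hw2⟩ := PP_base g hg 1 q
    exact ⟨⟨⟨w, hw⟩, hw1⟩, hw2⟩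
  · exact hP.1 _ _ (PP g).subtype (PP g).subtype_injective (hP.2 Q (Ck k) h)

theorem up_equiv {G E F : Type} [Group G] [Group E] [Group F] (h : Up G E) (e : F ≃* E) :
    Up G F := by
  refine ⟨?_, fun P hP h' => hP.1 _ _ e.toMonoidHom e.injective (h.2 P hP h')⟩
  obtain ⟨H, hH, π, hπ⟩ := h.1
  refine ⟨H.comap e.toMonoidHom, ⟨?_⟩, ?_⟩
  · rw [H.index_comap_of_surjective e.surjective]
    exact hH.index_ne_zero
  · let r : H.comap e.toMonoidHom →* H :=
      (e.toMonoidHom.comp (H.comap e.toMonoidHom).subtype).codRestrict H fun x => x.2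
    have hr : Function.Surjective r := by
      rintro ⟨x, hx⟩
      obtain ⟨k, rfl⟩ := e.surjective x
      exact ⟨⟨k, hx⟩, rfl⟩
    exact ⟨π.comp r, hπ.comp hr⟩

theorem Up.infinite {G E : Type} [Group G] [Group E] [hG : Infinite G] (h : Up G E) :
    Infinite E := by
  obtain ⟨H, -, π, hπ⟩ := h.1
  have h1 : Infinite H := Infinite.of_surjective π hπ
  exact Infinite.of_injective (fun x : H => (x : E)) Subtype.coe_injective

/-- Every finitely presented group is a virtual quotient of a quotient of the modular group by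
finitely many relations, which lies in the same closed classes. -/
theorem main {G : Type} [Group G] (hfp : Group.IsFinitelyPresented G) :
    ∃ S : Set Gam, S.Finite ∧ Up G (Gam ⧸ normalClosure S) := by
  obtain ⟨E, _, hE1, hE2, hE3⟩ := exists_fab hfp
  obtain ⟨k, g, hg⟩ := exists_gens hE1
  obtain ⟨S, hS, hS2⟩ := phi_ker g hg
  have e : (Gam ⧸ normalClosure S) ≃* PP g :=
    (QuotientGroup.quotientMulEquivOfEq hS2).trans
      ((QuotientGroup.quotientKerEquivRange (phi g)).trans (MulEquiv.subgroupCongr (phi_range g)))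
  exact ⟨S, hS, up_equiv (hE3.trans (up_PP g hg)) e⟩

/-- some subgroup of finite index embeds in a finite power of `G` -/
def VPow (G E : Type) [Group G] [Group E] : Prop :=
  ∃ H : Subgroup E, H.FiniteIndex ∧ ∃ (I : Type) (_ : Finite I) (f : H →* (I → G)),
    Function.Injective f

theorem closed_vpow (G : Type) [Group G] : Closed (fun E _ => VPow G E) := by
  constructor
  · rintro E F _ _ f hf ⟨H, hH, I, _, r, hr⟩
    refine ⟨H.comap f, ⟨by
      rw [index_comap]
      exact (inferInstance : (H.subgroupOf f.range).FiniteIndex).index_ne_zero⟩, I, inferInstance,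
      r.comp ((f.comp (H.comap f).subtype).codRestrict H fun x => x.2), ?_⟩
    intro a b hab
    have h1 := hr hab
    have h2 : f (a : F) = f (b : F) := congrArg Subtype.val h1
    exact Subtype.ext (hf h2)
  · rintro E C _ _ _ ⟨H, hH, I, _, r, hr⟩
    let B : Subgroup (C → E) := ⨅ c : C, H.comap (Pi.evalMonoidHom (fun _ : C => E) c)
    have hB : B.FiniteIndex := finiteIndex_iInf fun c => ⟨by
      rw [H.index_comap_of_surjective (Function.surjective_eval c)]
      exact hH.index_ne_zero⟩
    have hmem : ∀ f ∈ B, ∀ c, f c ∈ H := fun f hf c => (mem_iInf.1 hf) c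
    let e : B ≃* B.map (SemidirectProduct.inl : (C → E) →* W C E) :=
      B.equivMapOfInjective _ SemidirectProduct.inl_injective
    refine ⟨B.map (SemidirectProduct.inl : (C → E) →* W C E), ?_, C × I, inferInstance, ?_⟩
    · have h3 : (SemidirectProduct.inl : (C → E) →* W C E).range.FiniteIndex := by
        rw [SemidirectProduct.range_inl_eq_ker_rightHom]
        infer_instance
      refine ⟨?_⟩
      rw [index_map, (MonoidHom.ker_eq_bot_iff _).2 SemidirectProduct.inl_injective, sup_bot_eq]
      exact mul_ne_zero hB.index_ne_zero h3.index_ne_zero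
    · let ρ : B →* (C × I → G) :=
        { toFun := fun f p => r ⟨(f : C → E) p.1, hmem f f.2 p.1⟩ p.2
          map_one' := by
            funext p
            have : (⟨((1 : B) : C → E) p.1, hmem _ (1 : B).2 p.1⟩ : H) = 1 := rfl
            rw [this, map_one]
            rfl
          map_mul' := by
            intro f g
            funext p
            have : (⟨((f * g : B) : C → E) p.1, hmem _ (f * g).2 p.1⟩ : H) =
              ⟨(f : C → E) p.1, hmem f f.2 p.1⟩ * ⟨(g : C → E) p.1, hmem g g.2 p.1⟩ := rfl
            rw [this, map_mul]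
            rfl }
      refine ⟨ρ.comp e.symm.toMonoidHom, ?_⟩
      have hρ : Function.Injective ρ := by
        intro f g hfg
        apply Subtype.ext
        funext c
        have h4 : r ⟨(f : C → E) c, hmem f f.2 c⟩ = r ⟨(g : C → E) c, hmem g g.2 c⟩ := by
          funext i
          exact congrFun hfg (c, i)
        exact congrArg Subtype.val (hr h4)
      exact hρ.comp e.symm.injective

theorem vpow_refl (G : Type) [Group G] : VPow G G := by
  refine ⟨⊤, inferInstance, Unit, inferInstance,
    { toFun := fun x _ => (x : G), map_one' := rfl, map_mul' := fun _ _ => rfl }, ?_⟩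
  intro a b hab
  exact Subtype.ext (congrFun hab ())

theorem closed_subExp : Closed (fun G _ => SubExp G) :=
  ⟨fun _ _ _ _ f hf h => h.of_injective f hf, fun _ _ _ _ _ h => h.wreath⟩

theorem Up.vpow {G E : Type} [Group G] [Group E] (h : Up G E) : VPow G E :=
  h.2 (fun E _ => VPow G E) (closed_vpow G) (vpow_refl G)

theorem Up.type7 {G E : Type} [Group G] [Group E] [Group.FG E] (h : Up G E) (hG : Type7 G) :
    Type7 E := by
  apply type7_of
  · exact h.2 (fun G _ => SubExp G) closed_subExp (subExp_of_type7 hG)
  · obtain ⟨H, -, π, hπ⟩ := h.1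
    exact ((superPoly_of_type7 hG).of_surjective π hπ).of_injective H.subtype H.subtype_injective

end Pool.Agent.U613.VQ
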