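import Pool.Agent.U613.MG.FP

/-!
# The kernel of a map of a product of three finitely presented groups onto `ℤ`
-/

set_option autoImplicit false

namespace Pool.Agent.U613.VQ

open Subgroup Monoid.Coprod
open scoped commutatorElement

universe u v

section Core

variable {G : Type u} [Group G] (χ : G →* Multiplicative ℤ) (τ : G)
  (hτ : χ τ = Multiplicative.ofAdd 1) (A : Set G) (hA : ∀ a ∈ A, χ a = 1)
  (hgen : closure (A ∪ {τ}) = ⊤)

include hτ hA hgen

theorem ker_le (B : Subgroup G) (hBA : A ⊆ B) (hBτ : ∀ (i : ℤ), ∀ b ∈ B, τ ^ i * b * τ ^ (-i) ∈ B) :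
    χ.ker ≤ B := by
  have key : ∀ g : G, ∃ m : ℤ, g * τ ^ m ∈ B ⊓ χ.ker := by
    intro g
    have hg : g ∈ closure (A ∪ {τ}) := by rw [hgen]; trivial
    have hn : (χ.ker).Normal := inferInstance
    have hconj : ∀ (i : ℤ), ∀ b ∈ B ⊓ χ.ker, τ ^ i * b * τ ^ (-i) ∈ B ⊓ χ.ker := by
      intro i b hb
      refine ⟨hBτ i b hb.1, ?_⟩
      rw [zpow_neg]
      exact hn.conj_mem b hb.2 _
    induction hg using closure_induction with
    | mem x hx =>
      rcases hx with hx | hx
      · exact ⟨0, by rw [zpow_zero, mul_one]; exact ⟨hBA hx, hA x hx⟩⟩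
      · rw [Set.mem_singleton_iff] at hx
        subst hx
        exact ⟨-1, by rw [zpow_neg_one, mul_inv_cancel]; exact one_mem _⟩
    | one => exact ⟨0, by rw [zpow_zero, mul_one]; exact one_mem _⟩
    | mul x y _ _ hx hy =>
      obtain ⟨m, hm⟩ := hx
      obtain ⟨n, hn'⟩ := hy
      refine ⟨m + n, ?_⟩
      have h1 := mul_mem hm (hconj (-m) _ hn')
      have h2 : x * τ ^ m * (τ ^ (-m) * (y * τ ^ n) * τ ^ (-(-m))) = x * y * τ ^ (m + n) := by
        rw [neg_neg, zpow_neg, add_comm m n, zpow_add]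
        group
      rwa [h2] at h1
    | inv x _ hx =>
      obtain ⟨m, hm⟩ := hx
      refine ⟨-m, ?_⟩
      have h1 := hconj m _ (inv_mem hm)
      have h2 : τ ^ m * (x * τ ^ m)⁻¹ * τ ^ (-m) = x⁻¹ * τ ^ (-m) := by
        rw [mul_inv_rev, mul_inv_cancel_left]
      rwa [h2] at h1
  intro κ hκ
  obtain ⟨m, hm⟩ := key κ
  have h1 : χ (κ * τ ^ m) = 1 := hm.2
  rw [map_mul, map_zpow, hτ, (MonoidHom.mem_ker).1 hκ, one_mul] at h1
  have h2 : m = 0 := by
    have := congrArg Multiplicative.toAdd h1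
    rw [toAdd_zpow, toAdd_ofAdd, toAdd_one, smul_eq_mul, mul_one] at this
    exact this
  have h3 := hm.1
  rwa [h2, zpow_zero, mul_one] at h3

variable {Q : Type v} [Group Q] (L : G × G →* Q) (J : G →* Q)
  (h0 : L (τ⁻¹, 1) = J τ)
  (h1 : ∀ a ∈ A, ∀ a' ∈ A, Commute (L (a, 1)) (J a'))
  (h2 : ∀ a ∈ A, ∀ a' ∈ A, Commute (L (1, a)) (J a'))
  (h3 : ∀ a' ∈ A, Commute (L (τ, τ⁻¹)) (J a'))

include h0

omit hA hτ in
theorem comm_all {p : G × G} (hp1 : Commute (L p) (L (τ⁻¹, 1))) (hp2 : ∀ a' ∈ A, Commute (L p) (J a'))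
    (g : G) : Commute (L p) (J g) := by
  have hg : g ∈ closure (A ∪ {τ}) := by rw [hgen]; trivial
  induction hg using closure_induction with
  | mem x hx =>
    rcases hx with hx | hx
    · exact hp2 x hx
    · rw [Set.mem_singleton_iff] at hx
      subst hx
      rw [← h0]
      exact hp1
  | one => rw [map_one]; exact Commute.one_right _
  | mul x y _ _ hx hy => rw [map_mul]; exact hx.mul_right hy
  | inv x _ hx => rw [map_inv]; exact hx.inv_right

include h1 h2 h3

theorem comm_ker (p : G × G) (hp : χ p.1 * χ p.2 = 1) (κ : G) (hκ : χ κ = 1) :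
    Commute (L p) (J κ) := by
  -- the element `(τ, τ⁻¹)`
  have hd : ∀ g, Commute (L (τ, τ⁻¹)) (J g) := fun g =>
    comm_all τ A hgen L J h0 (by
      show L _ * L _ = L _ * L _
      rw [← map_mul, ← map_mul, Prod.mk_mul_mk, Prod.mk_mul_mk, mul_inv_cancel, inv_mul_cancel,
        mul_one, one_mul]) h3 g
  have hdz : ∀ (i : ℤ) g, Commute (L (τ ^ i, τ ^ (-i))) (J g) := by
    intro i g
    have e : ((τ ^ i, τ ^ (-i)) : G × G) = (τ, τ⁻¹) ^ i := by
      rw [Prod.ext_iff]
      exact ⟨rfl, by show τ ^ (-i) = τ⁻¹ ^ i; rw [inv_zpow, zpow_neg]⟩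
    rw [e, map_zpow]
    exact (hd g).zpow_left i
  -- the elements `(1, a)`
  have hr : ∀ a ∈ A, ∀ g, Commute (L (1, a)) (J g) := fun a ha g =>
    comm_all τ A hgen L J h0 (by
      show L _ * L _ = L _ * L _
      rw [← map_mul, ← map_mul, Prod.mk_mul_mk, Prod.mk_mul_mk, mul_one, one_mul, one_mul, mul_one])
      (h2 a ha) g
  have hJ : ∀ (i : ℤ) (g : G), J (τ ^ i * g * τ ^ (-i)) = L (τ ^ (-i), 1) * J g * L (τ ^ i, 1) := by
    intro i g
    have e : ∀ j : ℤ, J (τ ^ j) = L (τ ^ (-j), 1) := by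
      intro j
      have e1 : ((τ ^ (-j), 1) : G × G) = (τ⁻¹, 1) ^ j := by
        rw [Prod.ext_iff]
        exact ⟨by show τ ^ (-j) = τ⁻¹ ^ j; rw [inv_zpow, zpow_neg],
          by show (1 : G) = 1 ^ j; rw [one_zpow]⟩
      rw [e1, map_zpow, map_zpow, h0]
    rw [map_mul, map_mul, e, e, neg_neg]
  -- the elements `(a, 1)`
  have hl : ∀ a ∈ A, ∀ κ : G, χ κ = 1 → Commute (L (a, 1)) (J κ) := by
    intro a ha κ hκ
    let B : Subgroup G :=
      { carrier := {κ | ∀ i : ℤ, Commute (L (a, 1)) (J (τ ^ i * κ * τ ^ (-i)))}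
        mul_mem' := by
          intro x y hx hy i
          have e : τ ^ i * (x * y) * τ ^ (-i) = (τ ^ i * x * τ ^ (-i)) * (τ ^ i * y * τ ^ (-i)) := by
            rw [zpow_neg]; group
          rw [e, map_mul]
          exact (hx i).mul_right (hy i)
        one_mem' := by
          intro i
          rw [mul_one, zpow_neg, mul_inv_cancel, map_one]
          exact Commute.one_right _
        inv_mem' := by
          intro x hx i
          have e : τ ^ i * x⁻¹ * τ ^ (-i) = (τ ^ i * x * τ ^ (-i))⁻¹ := by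
            rw [zpow_neg]; group
          rw [e, map_inv]
          exact (hx i).inv_right }
    have hB : χ.ker ≤ B := by
      apply ker_le χ τ hτ A hA hgen B
      · intro a' ha' i
        rw [hJ]
        -- conjugate
        have e1 : L (τ ^ (-i), 1) * J a' * L (τ ^ i, 1) =
            (L (τ ^ i, 1))⁻¹ * J a' * L (τ ^ i, 1) := by
          rw [← map_inv, Prod.inv_mk, inv_one, zpow_neg]
        rw [e1]
        have h4 : Commute (L (τ ^ i, 1) * L (a, 1) * (L (τ ^ i, 1))⁻¹) (J a') := by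
          have e2 : L (τ ^ i, 1) * L (a, 1) * (L (τ ^ i, 1))⁻¹ =
              L (τ ^ i, τ ^ (-i)) * L (a, 1) * (L (τ ^ i, τ ^ (-i)))⁻¹ := by
            rw [← map_inv, ← map_inv, ← map_mul, ← map_mul, ← map_mul, ← map_mul]
            simp
          rw [e2]
          exact ((hdz i a').mul_left (h1 a ha a' ha')).mul_left (hdz i a').inv_left
        have h5 := (SemiconjBy.conj_mk (J a') (L (τ ^ i, 1))⁻¹)
        show L (a, 1) * ((L (τ ^ i, 1))⁻¹ * J a' * L (τ ^ i, 1)) =
          (L (τ ^ i, 1))⁻¹ * J a' * L (τ ^ i, 1) * L (a, 1)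
        have h6 : (L (τ ^ i, 1) * L (a, 1) * (L (τ ^ i, 1))⁻¹) * J a' =
          J a' * (L (τ ^ i, 1) * L (a, 1) * (L (τ ^ i, 1))⁻¹) := h4
        have h7 := congrArg (fun z => (L (τ ^ i, 1))⁻¹ * z * L (τ ^ i, 1)) h6
        simp only [mul_assoc, inv_mul_cancel_left, inv_mul_cancel, mul_one] at h7 ⊢
        exact h7
      · intro i b hb j
        have h4 := hb (j + i)
        have e : τ ^ j * (τ ^ i * b * τ ^ (-i)) * τ ^ (-j) = τ ^ (j + i) * b * τ ^ (-(j + i)) := by
          rw [zpow_add, zpow_neg, zpow_neg, zpow_neg, zpow_add]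
          group
        rw [e]
        exact h4
    have h4 := hB (MonoidHom.mem_ker.2 hκ) 0
    rwa [zpow_zero, neg_zero, zpow_zero, one_mul, mul_one] at h4
  -- the elements `(κ', 1)`
  have hl' : ∀ κ' : G, χ κ' = 1 → Commute (L (κ', 1)) (J κ) := by
    intro κ' hκ'
    let B : Subgroup G :=
      { carrier := {x | Commute (L (x, 1)) (J κ)}
        mul_mem' := by
          intro x y hx hy
          have e : L (x * y, 1) = L (x, 1) * L (y, 1) := by
            rw [← map_mul, Prod.mk_mul_mk, mul_one]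
          show Commute (L (x * y, 1)) (J κ)
          rw [e]
          exact Commute.mul_left hx hy
        one_mem' := by
          show Commute (L (1, 1)) (J κ)
          rw [show ((1, 1) : G × G) = 1 from rfl, map_one]
          exact Commute.one_left _
        inv_mem' := by
          intro x hx
          have e : L (x⁻¹, 1) = (L (x, 1))⁻¹ := by
            rw [← map_inv, Prod.inv_mk, inv_one]
          show Commute (L (x⁻¹, 1)) (J κ)
          rw [e]
          exact Commute.inv_left hx }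
    have hB : χ.ker ≤ B := by
      apply ker_le χ τ hτ A hA hgen B
      · intro a ha
        exact hl a ha κ hκ
      · intro i b hb
        show Commute (L (τ ^ i * b * τ ^ (-i), 1)) (J κ)
        have e : L (τ ^ i * b * τ ^ (-i), 1) =
            L (τ ^ i, τ ^ (-i)) * L (b, 1) * (L (τ ^ i, τ ^ (-i)))⁻¹ := by
          rw [← map_inv, ← map_mul, ← map_mul]
          simp
        rw [e]
        exact ((hdz i κ).mul_left hb).mul_left (hdz i κ).inv_left
    exact hB (MonoidHom.mem_ker.2 hκ')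
  have hr' : ∀ κ' : G, χ κ' = 1 → Commute (L (1, κ')) (J κ) := by
    intro κ' hκ'
    let B : Subgroup G :=
      { carrier := {x | Commute (L (1, x)) (J κ)}
        mul_mem' := by
          intro x y hx hy
          have e : L (1, x * y) = L (1, x) * L (1, y) := by
            rw [← map_mul, Prod.mk_mul_mk, mul_one]
          show Commute (L (1, x * y)) (J κ)
          rw [e]
          exact Commute.mul_left hx hy
        one_mem' := by
          show Commute (L (1, 1)) (J κ)
          rw [show ((1, 1) : G × G) = 1 from rfl, map_one]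
          exact Commute.one_left _
        inv_mem' := by
          intro x hx
          have e : L (1, x⁻¹) = (L (1, x))⁻¹ := by
            rw [← map_inv, Prod.inv_mk, inv_one]
          show Commute (L (1, x⁻¹)) (J κ)
          rw [e]
          exact Commute.inv_left hx }
    have hB : χ.ker ≤ B := by
      apply ker_le χ τ hτ A hA hgen B
      · intro a ha
        exact hr a ha κ
      · intro i b hb
        show Commute (L (1, τ ^ i * b * τ ^ (-i))) (J κ)
        have e : L (1, τ ^ i * b * τ ^ (-i)) =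
            L (τ ^ (-i), τ ^ i) * L (1, b) * (L (τ ^ (-i), τ ^ i))⁻¹ := by
          rw [← map_inv, ← map_mul, ← map_mul]
          simp
        rw [e]
        have h4 := hdz (-i) κ
        rw [neg_neg] at h4
        exact (h4.mul_left hb).mul_left h4.inv_left
    exact hB (MonoidHom.mem_ker.2 hκ')
  -- the general element
  obtain ⟨p1, p2⟩ := p
  simp only at hp
  set m : ℤ := Multiplicative.toAdd (χ p1) with hm
  have hσ : ∀ i : ℤ, χ (τ ^ i) = Multiplicative.ofAdd i := by
    intro i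
    rw [map_zpow, hτ, ← ofAdd_zsmul, smul_eq_mul, mul_one]
  have e1 : χ (p1 * τ ^ (-m)) = 1 := by
    rw [map_mul, hσ]
    show Multiplicative.ofAdd (Multiplicative.toAdd (χ p1) + -m) = 1
    rw [hm, add_neg_cancel, ofAdd_zero]
  have e2 : χ (p2 * τ ^ m) = 1 := by
    rw [map_mul, hσ, ← ofAdd_toAdd (χ p1), ← hm] at *
    rw [mul_comm]
    exact hp
  have e3 : ((p1, p2) : G × G) = (p1 * τ ^ (-m), 1) * (1, p2 * τ ^ m) * (τ ^ m, τ ^ (-m)) := by
    simp
  rw [e3, map_mul, map_mul]
  exact ((hl' _ e1).mul_left (hr' _ e2)).mul_left (hdz m κ)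

end Core

section Main

variable {G : Type} [Group G] (χ : G →* Multiplicative ℤ)

/-- the sum of the three degrees -/
def X3 : G × G × G →* Multiplicative ℤ :=
  χ.comp (MonoidHom.fst G (G × G)) *
    (χ.comp ((MonoidHom.fst G G).comp (MonoidHom.snd G (G × G))) *
      χ.comp ((MonoidHom.snd G G).comp (MonoidHom.snd G (G × G))))

theorem X3_apply (p : G × G × G) : X3 χ p = χ p.1 * (χ p.2.1 * χ p.2.2) := rfl

variable (τ : G)

/-- the powers of `τ` -/
def sg : Multiplicative ℤ →* G := zpowersHom G τ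

theorem sg_apply (m : Multiplicative ℤ) : sg τ m = τ ^ (Multiplicative.toAdd m) := rfl

variable (hτ : χ τ = Multiplicative.ofAdd 1)

include hτ in
theorem chi_sg (m : Multiplicative ℤ) : χ (sg τ m) = m := by
  rw [sg_apply, map_zpow, hτ, ← ofAdd_zsmul, smul_eq_mul, mul_one, ofAdd_toAdd]

/-- the first two factors -/
def i12 : G × G →* (X3 χ).ker :=
  ((MonoidHom.fst G G).prod ((MonoidHom.snd G G).prod
    ((sg τ).comp (χ.comp (MonoidHom.fst G G) * χ.comp (MonoidHom.snd G G))⁻¹))).codRestrict _ (by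
    intro p
    rw [MonoidHom.mem_ker, X3_apply]
    show χ p.1 * (χ p.2 * χ (sg τ (χ p.1 * χ p.2)⁻¹)) = 1
    rw [chi_sg χ τ hτ, ← mul_assoc, mul_inv_cancel])

/-- the third factor -/
def i3 : G →* (X3 χ).ker :=
  (((sg τ).comp χ⁻¹).prod ((1 : G →* G).prod (MonoidHom.id G))).codRestrict _ (by
    intro c
    rw [MonoidHom.mem_ker, X3_apply]
    show χ (sg τ (χ c)⁻¹) * (χ 1 * χ c) = 1
    rw [chi_sg χ τ hτ, map_one, one_mul, inv_mul_cancel])

theorem i12_apply (p : G × G) :
    (i12 χ τ hτ p : G × G × G) = (p.1, p.2, sg τ (χ p.1 * χ p.2)⁻¹) := rfl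

theorem i3_apply (c : G) : (i3 χ τ hτ c : G × G × G) = (sg τ (χ c)⁻¹, 1, c) := rfl

/-- the free product -/
def Th : Monoid.Coprod (G × G) G →* (X3 χ).ker := Monoid.Coprod.lift (i12 χ τ hτ) (i3 χ τ hτ)

theorem Th_surj : Function.Surjective (Th χ τ hτ) := by
  rintro ⟨⟨a, b, c⟩, h⟩
  rw [MonoidHom.mem_ker, X3_apply] at h
  simp only at h
  refine ⟨inl (a, b) * inr (sg τ (χ a * χ b) * c), ?_⟩
  have h1 : χ (sg τ (χ a * χ b) * c) = 1 := by
    rw [map_mul, chi_sg χ τ hτ, mul_assoc]
    exact h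
  apply Subtype.ext
  rw [map_mul, Th, Monoid.Coprod.lift_apply_inl, Monoid.Coprod.lift_apply_inr]
  show (i12 χ τ hτ (a, b) : G × G × G) * (i3 χ τ hτ (sg τ (χ a * χ b) * c) : G × G × G) = (a, b, c)
  rw [i12_apply, i3_apply, h1, inv_one, map_one, Prod.mk_mul_mk, Prod.mk_mul_mk, mul_one, mul_one,
    map_inv, inv_mul_cancel_left]

variable (A : Set G)

/-- the relations -/
def rl : Set (Monoid.Coprod (G × G) G) :=
  {inl (τ⁻¹, 1) * (inr τ)⁻¹} ∪
    (Set.image2 (fun a a' => ⁅(inl (a, 1) : Monoid.Coprod (G × G) G), inr a'⁆) A A ∪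
      (Set.image2 (fun a a' => ⁅(inl (1, a) : Monoid.Coprod (G × G) G), inr a'⁆) A A ∪
        (fun a' => ⁅(inl (τ, τ⁻¹) : Monoid.Coprod (G × G) G), inr a'⁆) '' A))

theorem rl_finite (hf : A.Finite) : (rl τ A).Finite :=
  (Set.finite_singleton _).union ((hf.image2 _ hf).union ((hf.image2 _ hf).union (hf.image _)))

variable (hA : ∀ a ∈ A, χ a = 1) (hgen : closure (A ∪ {τ}) = ⊤)

include hA in
theorem rl_le : normalClosure (rl τ A) ≤ (Th χ τ hτ).ker := by
  apply normalClosure_le_normal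
  have hcomm : ∀ p : G × G, χ p.1 * χ p.2 = 1 → ∀ a' ∈ A,
      ⁅(inl p : Monoid.Coprod (G × G) G), inr a'⁆ ∈ (Th χ τ hτ).ker := by
    intro p hp a' ha'
    rw [MonoidHom.mem_ker, map_commutatorElement, commutatorElement_eq_one_iff_commute, Th,
      Monoid.Coprod.lift_apply_inl, Monoid.Coprod.lift_apply_inr]
    apply Subtype.ext
    show (i12 χ τ hτ p : G × G × G) * (i3 χ τ hτ a' : G × G × G) =
      (i3 χ τ hτ a' : G × G × G) * (i12 χ τ hτ p : G × G × G)
    rw [i12_apply, i3_apply, hp, hA a' ha', inv_one, map_one]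
    simp
  rintro x (hx | ⟨a, ha, a', ha', rfl⟩ | ⟨a, ha, a', ha', rfl⟩ | ⟨a', ha', rfl⟩)
  · rw [Set.mem_singleton_iff] at hx
    subst hx
    rw [SetLike.mem_coe, MonoidHom.mem_ker, map_mul, map_inv, mul_inv_eq_one, Th,
      Monoid.Coprod.lift_apply_inl, Monoid.Coprod.lift_apply_inr]
    apply Subtype.ext
    rw [i12_apply, i3_apply]
    simp only [map_inv, map_one, mul_one, inv_inv, hτ]
    rw [sg_apply, toAdd_ofAdd, zpow_one]
  · exact hcomm (a, 1) (by simp [hA a ha]) a' ha'
  · exact hcomm (1, a) (by simp [hA a ha]) a' ha'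
  · exact hcomm (τ, τ⁻¹) (by simp) a' ha'

include hA hgen in
theorem Th_ker : (Th χ τ hτ).ker = normalClosure (rl τ A) := by
  apply le_antisymm
  · let q := QuotientGroup.mk' (normalClosure (rl τ A))
    let L : G × G →* _ := q.comp inl
    let J : G →* _ := q.comp inr
    have hq : ∀ x ∈ rl τ A, q x = 1 := fun x hx =>
      (QuotientGroup.eq_one_iff _).2 (subset_normalClosure hx)
    have h0 : L (τ⁻¹, 1) = J τ := by
      have := hq _ (Or.inl rfl)
      rw [map_mul, map_inv, mul_inv_eq_one] at this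
      exact this
    have h1 : ∀ a ∈ A, ∀ a' ∈ A, Commute (L (a, 1)) (J a') := by
      intro a ha a' ha'
      have := hq _ (Or.inr (Or.inl ⟨a, ha, a', ha', rfl⟩))
      rw [map_commutatorElement] at this
      exact commutatorElement_eq_one_iff_commute.1 this
    have h2 : ∀ a ∈ A, ∀ a' ∈ A, Commute (L (1, a)) (J a') := by
      intro a ha a' ha'
      have := hq _ (Or.inr (Or.inr (Or.inl ⟨a, ha, a', ha', rfl⟩)))
      rw [map_commutatorElement] at this
      exact commutatorElement_eq_one_iff_commute.1 this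
    have h3 : ∀ a' ∈ A, Commute (L (τ, τ⁻¹)) (J a') := by
      intro a' ha'
      have := hq _ (Or.inr (Or.inr (Or.inr ⟨a', ha', rfl⟩)))
      rw [map_commutatorElement] at this
      exact commutatorElement_eq_one_iff_commute.1 this
    have hc := comm_ker χ τ hτ A hA hgen L J h0 h1 h2 h3
    have hJz : ∀ j : ℤ, J (τ ^ j) = L (τ ^ (-j), 1) := by
      intro j
      have e1 : ((τ ^ (-j), 1) : G × G) = (τ⁻¹, 1) ^ j := by
        rw [Prod.ext_iff]
        exact ⟨by show τ ^ (-j) = τ⁻¹ ^ j; rw [inv_zpow, zpow_neg],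
          by show (1 : G) = 1 ^ j; rw [one_zpow]⟩
      rw [e1, map_zpow, map_zpow, h0]
    have hσ : ∀ i : ℤ, χ (τ ^ i) = Multiplicative.ofAdd i := by
      intro i
      rw [map_zpow, hτ, ← ofAdd_zsmul, smul_eq_mul, mul_one]
    -- `J κ L p = L p J κ'`
    have hswap : ∀ (κ : G), χ κ = 1 → ∀ p : G × G, ∃ κ' : G, χ κ' = 1 ∧
        J κ * L p = L p * J κ' := by
      intro κ hκ p
      obtain ⟨p1, p2⟩ := p
      obtain ⟨j, hj⟩ : ∃ j : ℤ, j = -(Multiplicative.toAdd (χ p1) + Multiplicative.toAdd (χ p2)) :=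
        ⟨_, rfl⟩
      have hn : χ (p1 * τ ^ j) * χ p2 = 1 := by
        rw [map_mul, hσ]
        show Multiplicative.ofAdd (Multiplicative.toAdd (χ p1) + j + Multiplicative.toAdd (χ p2)) = 1
        rw [hj, show Multiplicative.toAdd (χ p1) +
          -(Multiplicative.toAdd (χ p1) + Multiplicative.toAdd (χ p2)) +
          Multiplicative.toAdd (χ p2) = 0 by ring, ofAdd_zero]
      have h4 := hc (p1 * τ ^ j, p2) hn κ hκ
      have e1 : L (p1, p2) = L (p1 * τ ^ j, p2) * J (τ ^ j) := by
        rw [hJz, ← map_mul]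
        congr 1
        simp
      refine ⟨τ ^ (-j) * κ * τ ^ j, ?_, ?_⟩
      · rw [map_mul, map_mul, hκ, mul_one, ← map_mul, zpow_neg, inv_mul_cancel, map_one]
      · rw [e1, ← mul_assoc, ← h4.eq, mul_assoc, mul_assoc, ← map_mul, ← map_mul]
        congr 2
        rw [zpow_neg, mul_assoc (τ ^ j)⁻¹, mul_inv_cancel_left]
    have hform : ∀ x : Monoid.Coprod (G × G) G, ∃ (p : G × G) (κ : G), χ κ = 1 ∧
        q x = L p * J κ := by
      intro x
      induction x using Monoid.Coprod.induction_on with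
      | inl p => exact ⟨p, 1, map_one _, by rw [map_one, mul_one]; rfl⟩
      | inr g =>
        refine ⟨(τ ^ (-(Multiplicative.toAdd (χ g))), 1), τ ^ (-(Multiplicative.toAdd (χ g))) * g, ?_, ?_⟩
        · rw [map_mul, hσ]
          show Multiplicative.ofAdd (-(Multiplicative.toAdd (χ g)) + Multiplicative.toAdd (χ g)) = 1
          rw [neg_add_cancel, ofAdd_zero]
        · rw [← hJz, ← map_mul]
          show J g = _
          congr 1
          rw [zpow_neg, mul_inv_cancel_left]
      | mul x y hx hy =>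
        obtain ⟨p, κ, hκ, hp⟩ := hx
        obtain ⟨p', κ', hκ', hp'⟩ := hy
        obtain ⟨κ2, hκ2, h5⟩ := hswap κ hκ p'
        refine ⟨p * p', κ2 * κ', by rw [map_mul, hκ2, hκ', mul_one], ?_⟩
        rw [map_mul, hp, hp', map_mul, map_mul, mul_assoc, ← mul_assoc (J κ), h5]
        simp only [mul_assoc]
    have hker := rl_le χ τ hτ A hA
    intro x hx
    obtain ⟨p, κ, hκ, h4⟩ := hform x
    have h5 : (inl p * inr κ)⁻¹ * x ∈ normalClosure (rl τ A) := by
      rw [← QuotientGroup.eq_one_iff]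
      show q _ = 1
      rw [map_mul, map_inv, map_mul, h4]
      show (L p * J κ)⁻¹ * (L p * J κ) = 1
      rw [inv_mul_cancel]
    have h6 := hker h5
    rw [MonoidHom.mem_ker, map_mul, map_inv, (MonoidHom.mem_ker).1 hx, mul_one, inv_eq_one,
      map_mul, Th, Monoid.Coprod.lift_apply_inl, Monoid.Coprod.lift_apply_inr] at h6
    have h7 := congrArg (fun z : (X3 χ).ker => (z : G × G × G)) h6
    have h8 : (i12 χ τ hτ p : G × G × G) * (i3 χ τ hτ κ : G × G × G) = 1 := h7
    rw [i12_apply, i3_apply, hκ, inv_one, map_one, Prod.mk_mul_mk, Prod.mk_mul_mk, mul_one,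
      mul_one] at h8
    have h9 : p.1 = 1 := congrArg Prod.fst h8
    have h10 : p.2 = 1 := congrArg (fun z : G × G × G => z.2.1) h8
    have h11 : sg τ (χ p.1 * χ p.2)⁻¹ * κ = 1 := congrArg (fun z : G × G × G => z.2.2) h8
    rw [h9, h10, map_one, one_mul, inv_one, map_one, one_mul] at h11
    have h12 : inl p * inr κ = (1 : Monoid.Coprod (G × G) G) := by
      rw [h11, map_one, mul_one, show p = 1 from Prod.ext h9 h10, map_one]
    rw [h12, inv_one, one_mul] at h5
    exact h5
  · exact rl_le χ τ hτ A hA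

/-- The kernel of a map of the product of three copies of a finitely presented group onto `ℤ`, given
by an epimorphism `χ` on each factor, is finitely presented. -/
theorem fp_ker3 [hG : Group.IsFinitelyPresented G] (hχ : Function.Surjective χ) :
    Group.IsFinitelyPresented (X3 χ).ker := by
  classical
  obtain ⟨τ, hτ⟩ := hχ (Multiplicative.ofAdd 1)
  obtain ⟨m, φ, hφ, -⟩ := hG.out
  have hcl : closure (Set.range fun i => φ (FreeGroup.of i)) = ⊤ := by
    have h2 : closure (Set.range (FreeGroup.of : Fin m → FreeGroup (Fin m))) = ⊤ :=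
      FreeGroup.closure_range_of _
    have h3 := congrArg (Subgroup.map φ) h2
    rw [MonoidHom.map_closure, ← Set.range_comp, ← MonoidHom.range_eq_map,
      MonoidHom.range_eq_top.2 hφ] at h3
    exact h3
  set g : Fin m → G := fun i => φ (FreeGroup.of i) with hg
  let A : Set G := Set.range fun i => g i * sg τ (χ (g i))⁻¹
  have hAf : A.Finite := Set.finite_range _
  have hA : ∀ a ∈ A, χ a = 1 := by
    rintro _ ⟨i, rfl⟩
    rw [map_mul, chi_sg χ τ hτ, mul_inv_cancel]
  have hgen : closure (A ∪ {τ}) = ⊤ := by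
    rw [eq_top_iff, ← hcl, closure_le]
    rintro _ ⟨i, rfl⟩
    have h1 : g i * sg τ (χ (g i))⁻¹ ∈ closure (A ∪ {τ}) := subset_closure (Or.inl ⟨i, rfl⟩)
    have h2 : τ ∈ closure (A ∪ {τ}) := subset_closure (Or.inr rfl)
    have h3 : sg τ (χ (g i))⁻¹ ∈ closure (A ∪ {τ}) := by
      rw [sg_apply]
      exact zpow_mem h2 _
    have h4 := mul_mem h1 (inv_mem h3)
    rwa [mul_inv_cancel_right] at h4
  have h1 : Group.IsFinitelyPresented (G × G) :=
    Pool.Agent.Helper376.DL.fp_prod (Set.finite_range g) (Set.finite_range g) hcl hcl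
  exact Group.IsFinitelyPresented.of_surjective (Th χ τ hτ) (Th_surj χ τ hτ)
    ⟨rl τ A, rl_finite τ A hAf, (Th_ker χ τ hτ A hA hgen).symm⟩

end Main

end Pool.Agent.U613.VQ
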