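import Pool.Agent.U613.VQ.Ker3
import Pool.Agent.U613.PO.Lab

/-!
# A finitely presented group with fewer characters
-/

set_option autoImplicit false

namespace Pool.Agent.U613.VQ

open Subgroup Pool.Agent.U613.PO Pool.Agent.U613.MG

universe u v

/-- the group of order three -/
abbrev C3 : Type := Multiplicative (ZMod 3)

/-- a group with a finitely generated subgroup of finite index is finitely generated -/
theorem fg_of_sub {E : Type u} [Group E] (H : Subgroup E) [hH : H.FiniteIndex] (h : Group.FG H) :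
    Group.FG E := by
  classical
  obtain ⟨S, hS, hSf⟩ := (Group.fg_iff).1 h
  have hq : Finite (E ⧸ H) := finite_quotient_of_finiteIndex
  refine Group.fg_iff.2 ⟨H.subtype '' S ∪ Set.range (fun q : E ⧸ H => q.out), ?_,
    (hSf.image _).union (Set.finite_range _)⟩
  rw [eq_top_iff]
  intro x _
  have h1 : H ≤ closure (H.subtype '' S ∪ Set.range (fun q : E ⧸ H => q.out)) := by
    have h2 : H = closure (H.subtype '' S) := by
      rw [← MonoidHom.map_closure, hS, ← MonoidHom.range_eq_map, range_subtype]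
    conv_lhs => rw [h2]
    exact closure_mono Set.subset_union_left
  have h3 : (x : E ⧸ H).out⁻¹ * x ∈ H := by
    have : (QuotientGroup.mk ((x : E ⧸ H).out) : E ⧸ H) = x := Quotient.out_eq' _
    exact QuotientGroup.eq.1 this
  have h4 := mul_mem (subset_closure (Or.inr ⟨(x : E ⧸ H), rfl⟩) :
    (x : E ⧸ H).out ∈ closure (H.subtype '' S ∪ Set.range (fun q : E ⧸ H => q.out))) (h1 h3)
  rwa [mul_inv_cancel_left] at h4

section

variable {G : Type} [Group G] (χ : G →* Multiplicative ℤ)

/-- the sum of the degrees -/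
def Xt : W C3 G →* Multiplicative ℤ where
  toFun w := ∏ c : C3, χ (w.left c)
  map_one' := by
    apply Finset.prod_eq_one
    intro c _
    exact map_one χ
  map_mul' a b := by
    have h1 : ∏ c : C3, χ (b.left (c * a.right)) = ∏ c : C3, χ (b.left c) :=
      Fintype.prod_equiv (Equiv.mulRight a.right) _ _ (fun c => rfl)
    rw [← h1, ← Finset.prod_mul_distrib]
    apply Finset.prod_congr rfl
    intro c _
    rw [W.mul_left_apply, map_mul]

/-- the new group -/
def EE : Subgroup (W C3 G) := (Xt χ).ker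

theorem mem_EE (w : W C3 G) : w ∈ EE χ ↔ ∏ c : C3, χ (w.left c) = 1 := Iff.rfl

/-- triples of group elements as functions -/
def fn (a b c : G) : C3 → G := fun x => ![a, b, c] (Multiplicative.toAdd x)

theorem prod_C3 {M : Type} [CommMonoid M] (f : C3 → M) :
    ∏ x : C3, f x = f (Multiplicative.ofAdd 0) * (f (Multiplicative.ofAdd 1) *
      f (Multiplicative.ofAdd 2)) := by
  have h : ∏ x : C3, f x = ∏ x : ZMod 3, f (Multiplicative.ofAdd x) :=
    Fintype.prod_equiv Multiplicative.toAdd _ _ (fun x => rfl)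
  rw [h]
  have h2 := Fin.prod_univ_three (fun x : Fin 3 => f (Multiplicative.ofAdd (x : ZMod 3)))
  rw [mul_assoc] at h2
  exact h2

/-- the functions on the group of order three -/
def e3 : (C3 → G) ≃* G × G × G where
  toFun f := (f (Multiplicative.ofAdd 0), f (Multiplicative.ofAdd 1), f (Multiplicative.ofAdd 2))
  invFun p := fn p.1 p.2.1 p.2.2
  left_inv f := by
    funext x
    induction x using Multiplicative.rec with
    | _ x => fin_cases x <;> rfl
  right_inv p := rfl
  map_mul' f g := rfl

instance baseEE_finiteIndex : (base (EE χ)).FiniteIndex := by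
  unfold base
  infer_instance

/-- the base part -/
def baseEE : (X3 χ).ker ≃* base (EE χ) where
  toFun p := ⟨⟨SemidirectProduct.inl (e3.symm (p : G × G × G)), by
    rw [mem_EE, prod_C3]
    exact p.2⟩, rfl⟩
  invFun w := ⟨e3 ((w : EE χ) : W C3 G).left, by
    have h := (w : EE χ).2
    rw [mem_EE, prod_C3] at h
    exact h⟩
  left_inv p := rfl
  right_inv w := by
    apply Subtype.ext
    apply Subtype.ext
    apply SemidirectProduct.ext
    · exact e3.symm_apply_apply _
    · exact w.2.symm
  map_mul' p q := by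
    apply Subtype.ext
    apply Subtype.ext
    show SemidirectProduct.inl (e3.symm ((p * q : (X3 χ).ker) : G × G × G)) = _
    rw [Subgroup.coe_mul, map_mul, map_mul]
    rfl

theorem EE_fp [hG : Group.IsFinitelyPresented G] (hχ : Function.Surjective χ) :
    Group.IsFinitelyPresented (EE χ) := by
  have h1 := fp_ker3 χ hχ
  have h2 : Group.IsFinitelyPresented (base (EE χ)) := Group.IsFinitelyPresented.equiv (baseEE χ)
  have h3 : Group.FG (base (EE χ)) := by
    obtain ⟨m, φ, hφ, -⟩ := h2.out
    exact Group.fg_of_surjective hφ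
  have h4 : Group.FG (EE χ) := fg_of_sub (base (EE χ)) h3
  exact fp_of_sub (base (EE χ)) h2

/-- the base part maps onto the group -/
theorem EE_quot (hχ : Function.Surjective χ) :
    ∃ π : base (EE χ) →* G, Function.Surjective π := by
  obtain ⟨τ, hτ⟩ := hχ (Multiplicative.ofAdd 1)
  refine ⟨((MonoidHom.fst G (G × G)).comp (X3 χ).ker.subtype).comp (baseEE χ).symm.toMonoidHom, ?_⟩
  intro a
  refine ⟨baseEE χ (i12 χ τ hτ (a, 1)), ?_⟩
  show ((((baseEE χ).symm (baseEE χ (i12 χ τ hτ (a, 1)))) : (X3 χ).ker) : G × G × G).1 = a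
  rw [MulEquiv.symm_apply_apply]
  rfl

end

section Rank

/-- the rational characters -/
abbrev V (G : Type u) [Group G] : Type u := Additive G →+ ℚ

theorem finite_V {G : Type u} [Group G] [hG : Group.FG G] : FiniteDimensional ℚ (V G) := by
  classical
  obtain ⟨S, hS⟩ := hG.out
  let ev : V G →ₗ[ℚ] (S → ℚ) :=
    { toFun := fun f s => f (Additive.ofMul (s : G))
      map_add' := fun _ _ => rfl
      map_smul' := fun _ _ => rfl }
  refine FiniteDimensional.of_injective ev ?_
  rw [← LinearMap.ker_eq_bot, LinearMap.ker_eq_bot']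
  intro f hf
  have key : ∀ x : G, f (Additive.ofMul x) = 0 := by
    intro x
    have hx : x ∈ closure (S : Set G) := by rw [hS]; trivial
    induction hx using closure_induction with
    | mem x hx => exact congrFun hf ⟨x, hx⟩
    | one => exact map_zero f
    | mul x y _ _ hx hy => rw [ofMul_mul, map_add, hx, hy, add_zero]
    | inv x _ hx => rw [ofMul_inv, map_neg, hx, neg_zero]
  ext x
  exact key x

variable {G : Type} [Group G] (χ : G →* Multiplicative ℤ) (τ : G)
  (hτ : χ τ = Multiplicative.ofAdd 1)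

/-- a homomorphism of the group to the new group -/
def kk : G →* EE χ where
  toFun g := ⟨SemidirectProduct.inl (fn g (sg τ (χ g)⁻¹) 1), by
    rw [mem_EE, prod_C3]
    show χ g * (χ (sg τ (χ g)⁻¹) * χ 1) = 1
    rw [chi_sg χ τ hτ, map_one, mul_one, mul_inv_cancel]⟩
  map_one' := by
    apply Subtype.ext
    show SemidirectProduct.inl (fn 1 (sg τ (χ 1)⁻¹) 1) = 1
    rw [map_one, inv_one, map_one]
    have : fn (1 : G) 1 1 = 1 := by
      funext x
      induction x using Multiplicative.rec with
      | _ x => fin_cases x <;> rfl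
    rw [this, map_one]
  map_mul' a b := by
    apply Subtype.ext
    show SemidirectProduct.inl (fn (a * b) (sg τ (χ (a * b))⁻¹) 1) =
      SemidirectProduct.inl (fn a (sg τ (χ a)⁻¹) 1) * SemidirectProduct.inl (fn b (sg τ (χ b)⁻¹) 1)
    rw [← map_mul]
    congr 1
    funext x
    induction x using Multiplicative.rec with
    | _ x =>
      fin_cases x
      · rfl
      · show sg τ (χ (a * b))⁻¹ = sg τ (χ a)⁻¹ * sg τ (χ b)⁻¹
        rw [map_mul, mul_inv, map_mul]
      · show (1 : G) = 1 * 1
        rw [mul_one]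

/-- the shifts -/
def sh (c : C3) : EE χ := ⟨SemidirectProduct.inr c, by
  rw [mem_EE]
  apply Finset.prod_eq_one
  intro d _
  exact map_one χ⟩

theorem f_conj {E : Type} [Group E] (f : V E) (x y : E) :
    f (Additive.ofMul (x * y * x⁻¹)) = f (Additive.ofMul y) := by
  rw [ofMul_mul, ofMul_mul, ofMul_inv, map_add, map_add, map_neg]
  ring

/-- restriction to the first factor -/
def lam : V (EE χ) →ₗ[ℚ] V G where
  toFun f := f.comp (MonoidHom.toAdditive (kk χ τ hτ))
  map_add' _ _ := rfl
  map_smul' _ _ := rfl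

theorem lam_apply (f : V (EE χ)) (g : G) :
    lam χ τ hτ f (Additive.ofMul g) = f (Additive.ofMul (kk χ τ hτ g)) := rfl

theorem conj_left (c : C3) (f : C3 → G) (d : C3) :
    ((SemidirectProduct.inr c : W C3 G) * SemidirectProduct.inl f *
      (SemidirectProduct.inr c : W C3 G)⁻¹).left d = f (d * c) := by
  rw [W.mul_left_apply, W.mul_left_apply, W.inv_left_apply]
  simp

/-- the shifted homomorphisms -/
theorem k1 (g : G) : (((sh χ (Multiplicative.ofAdd 2) * kk χ τ hτ g *
    (sh χ (Multiplicative.ofAdd 2))⁻¹ : EE χ)) : W C3 G) =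
      SemidirectProduct.inl (fn 1 g (sg τ (χ g)⁻¹)) := by
  show (SemidirectProduct.inr (Multiplicative.ofAdd 2) : W C3 G) *
    SemidirectProduct.inl (fn g (sg τ (χ g)⁻¹) 1) *
      (SemidirectProduct.inr (Multiplicative.ofAdd 2) : W C3 G)⁻¹ = _
  apply SemidirectProduct.ext
  · funext d
    rw [conj_left]
    induction d using Multiplicative.rec with
    | _ x => fin_cases x <;> rfl
  · simp

theorem k2 (g : G) : (((sh χ (Multiplicative.ofAdd 1) * kk χ τ hτ g *
    (sh χ (Multiplicative.ofAdd 1))⁻¹ : EE χ)) : W C3 G) =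
      SemidirectProduct.inl (fn (sg τ (χ g)⁻¹) 1 g) := by
  show (SemidirectProduct.inr (Multiplicative.ofAdd 1) : W C3 G) *
    SemidirectProduct.inl (fn g (sg τ (χ g)⁻¹) 1) *
      (SemidirectProduct.inr (Multiplicative.ofAdd 1) : W C3 G)⁻¹ = _
  apply SemidirectProduct.ext
  · funext d
    rw [conj_left]
    induction d using Multiplicative.rec with
    | _ x => fin_cases x <;> rfl
  · simp

theorem fn_mul (a b c a' b' c' : G) : fn a b c * fn a' b' c' = fn (a * a') (b * b') (c * c') := by
  funext x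
  induction x using Multiplicative.rec with
  | _ x => fin_cases x <;> rfl

theorem fn_one : fn (1 : G) 1 1 = 1 := by
  funext x
  induction x using Multiplicative.rec with
  | _ x => fin_cases x <;> rfl

/-- a product of three shifted images -/
theorem three (a b c : G) :
    ((kk χ τ hτ a * (sh χ (Multiplicative.ofAdd 2) * kk χ τ hτ b *
      (sh χ (Multiplicative.ofAdd 2))⁻¹) * (sh χ (Multiplicative.ofAdd 1) * kk χ τ hτ c *
        (sh χ (Multiplicative.ofAdd 1))⁻¹) : EE χ) : W C3 G) =
      SemidirectProduct.inl (fn (a * sg τ (χ c)⁻¹) (sg τ (χ a)⁻¹ * b) (sg τ (χ b)⁻¹ * c)) := by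
  rw [Subgroup.coe_mul, Subgroup.coe_mul, k1, k2]
  show SemidirectProduct.inl (fn a (sg τ (χ a)⁻¹) 1) * _ * _ = _
  rw [← map_mul, ← map_mul, fn_mul, fn_mul, mul_one, mul_one, one_mul]

theorem f_three (f : V (EE χ)) (a b c : G) :
    f (Additive.ofMul (kk χ τ hτ a * (sh χ (Multiplicative.ofAdd 2) * kk χ τ hτ b *
      (sh χ (Multiplicative.ofAdd 2))⁻¹) * (sh χ (Multiplicative.ofAdd 1) * kk χ τ hτ c *
        (sh χ (Multiplicative.ofAdd 1))⁻¹) : EE χ)) =
      f (Additive.ofMul (kk χ τ hτ a)) + f (Additive.ofMul (kk χ τ hτ b)) +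
        f (Additive.ofMul (kk χ τ hτ c)) := by
  rw [ofMul_mul, ofMul_mul, map_add, map_add, f_conj, f_conj]

theorem lam_tau (f : V (EE χ)) : lam χ τ hτ f (Additive.ofMul τ) = 0 := by
  have h1 := f_three χ τ hτ f τ τ τ
  have h2 : (kk χ τ hτ τ * (sh χ (Multiplicative.ofAdd 2) * kk χ τ hτ τ *
      (sh χ (Multiplicative.ofAdd 2))⁻¹) * (sh χ (Multiplicative.ofAdd 1) * kk χ τ hτ τ *
        (sh χ (Multiplicative.ofAdd 1))⁻¹) : EE χ) = 1 := by
    apply Subtype.ext
    rw [three]
    have h3 : sg τ (χ τ)⁻¹ = τ⁻¹ := by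
      rw [hτ, map_inv, sg_apply, toAdd_ofAdd, zpow_one]
    rw [h3, mul_inv_cancel, inv_mul_cancel, fn_one, map_one]
    rfl
  rw [h2, ofMul_one, map_zero] at h1
  rw [lam_apply]
  linarith

theorem lam_injective : Function.Injective (lam χ τ hτ) := by
  rw [← LinearMap.ker_eq_bot, LinearMap.ker_eq_bot']
  intro f hf
  have h0 : ∀ g, f (Additive.ofMul (kk χ τ hτ g)) = 0 := by
    intro g
    rw [← lam_apply, hf]
    rfl
  have h1 : ∀ e : EE χ, (e : W C3 G).right = 1 → f (Additive.ofMul e) = 0 := by
    intro e he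
    obtain ⟨a, ha⟩ : ∃ a, a = (e : W C3 G).left (Multiplicative.ofAdd 0) := ⟨_, rfl⟩
    obtain ⟨b, hb⟩ : ∃ b, b = (e : W C3 G).left (Multiplicative.ofAdd 1) := ⟨_, rfl⟩
    obtain ⟨c, hc⟩ : ∃ c, c = (e : W C3 G).left (Multiplicative.ofAdd 2) := ⟨_, rfl⟩
    have hprod : χ a * (χ b * χ c) = 1 := by
      have := e.2
      rw [mem_EE, prod_C3, ← ha, ← hb, ← hc] at this
      exact this
    have h2 := f_three χ τ hτ f a (sg τ (χ a) * b) (sg τ (χ a * χ b) * c)
    rw [h0, h0, h0, add_zero, add_zero] at h2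
    rw [← h2]
    congr 2
    apply Subtype.ext
    rw [three]
    apply SemidirectProduct.ext
    · funext x
      have e1 : χ (sg τ (χ a * χ b) * c) = 1 := by
        rw [map_mul, chi_sg χ τ hτ, mul_assoc]
        exact hprod
      have e2 : χ (sg τ (χ a) * b) = χ a * χ b := by
        rw [map_mul, chi_sg χ τ hτ]
      rw [e1, e2, inv_one, map_one, mul_one, map_inv, inv_mul_cancel_left, map_inv,
        inv_mul_cancel_left, SemidirectProduct.left_inl]
      induction x using Multiplicative.rec with
      | _ x =>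
        fin_cases x
        · exact ha.symm
        · exact hb.symm
        · exact hc.symm
    · exact he
  ext e
  show f (Additive.ofMul e) = 0
  have h3 : f (Additive.ofMul (e ^ 3)) = 0 := by
    apply h1
    show ((e : W C3 G) ^ 3).right = 1
    rw [W.pow_right]
    have : ∀ c : C3, c ^ 3 = 1 := by decide
    exact this _
  rw [ofMul_pow, map_nsmul] at h3
  simpa using h3

include hτ in
theorem rank_lt [hG : Group.FG G] :
    Module.finrank ℚ (V (EE χ)) < Module.finrank ℚ (V G) := by
  have hfin := finite_V (G := G)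
  let ev : V G →ₗ[ℚ] ℚ :=
    { toFun := fun f => f (Additive.ofMul τ)
      map_add' := fun _ _ => rfl
      map_smul' := fun _ _ => rfl }
  let χq : V G :=
    { toFun := fun x => ((Multiplicative.toAdd (χ x.toMul) : ℤ) : ℚ)
      map_zero' := by simp
      map_add' := by intro x y; simp }
  have h1 : LinearMap.ker ev ≠ ⊤ := by
    intro h
    have h2 : χq ∈ LinearMap.ker ev := by rw [h]; trivial
    rw [LinearMap.mem_ker] at h2
    have h3 : ((Multiplicative.toAdd (χ τ) : ℤ) : ℚ) = 0 := h2
    rw [hτ] at h3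
    simp at h3
  have h2 := Submodule.finrank_lt h1
  let lam' : V (EE χ) →ₗ[ℚ] LinearMap.ker ev :=
    (lam χ τ hτ).codRestrict (LinearMap.ker ev) (fun f => lam_tau χ τ hτ f)
  have h3 : Function.Injective lam' := by
    intro f f' hff
    exact lam_injective χ τ hτ (congrArg Subtype.val hff)
  exact lt_of_le_of_lt (LinearMap.finrank_le_finrank_of_injective h3) h2

end Rank

end Pool.Agent.U613.VQ
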